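import Mathlib
import Pool.Agent.Q186.SM.GrDef
import Pool.Agent.Q186.SM.Core

/-!
# Nullity conditions on the structure vector field of real hypersurfaces of
`G_2(ℂ^{m+2})` and of `SU(2,m)/S(U(2)×U(m))`, `m ≥ 3`

None of the three nullity conditions (κ), (κ, μ), (κ, μ, ν) is satisfied by any real
hypersurface, not even by an arbitrarily small piece of one and with arbitrary functions.

The ambient spaces, the Levi-Civita connection, the curvature tensor and real hypersurfaces are
defined in `Pool.Agent.Q186.SM.Conn` and `Pool.Agent.Q186.SM.GrDef`.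
-/

namespace Pool.Agent.Results.MP_5c1318_gt.NoNullity

open Q186.SM

variable {ε c : ℝ} {m : ℕ}

/-- `η(x) = g(x, ξ)` where `ξ = -J N` is the structure vector. -/
noncomputable def eta (M : RealHypersurface ε c m) (u x : Dom m) : ℝ :=
  gm ε c (dF M.F u x) (-(cpx (M.F u) (M.N u)))

/-- `φ x = J x - η(x) N` (as a vector of the ambient space). -/
noncomputable def phi (M : RealHypersurface ε c m) (u x : Dom m) : Mat m :=
  cpx (M.F u) (dF M.F u x) - eta M u x • M.N u

/-- `κ x + μ A x + ν φ A x` (as a vector of the ambient space). -/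
noncomputable def comb (M : RealHypersurface ε c m) (κ μ ν : ℝ) (u x : Dom m) : Mat m :=
  κ • dF M.F u x + μ • dF M.F u (M.A u x) + ν • phi M u (M.A u x)

/-- The structure vector field `ξ = -J N` belongs to the `(κ, μ, ν)`-nullity distribution:
`R(x, y) ξ = η(y) (κ x + μ A x + ν φ A x) - η(x) (κ y + μ A y + ν φ A y)` for all tangent vectors
`x, y` at all points `u` (the equation is written in the ambient tangent space, that is, after
applying the injective differential of the immersion `F`). -/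
def InNullity (M : RealHypersurface ε c m) (κ μ ν : Dom m → ℝ) : Prop :=
  ∀ u ∈ M.U, ∀ ξ, dF M.F u ξ = -(cpx (M.F u) (M.N u)) → ∀ x y,
    dF M.F u (curvature M.Γ u x y ξ)
      = eta M u y • comb M (κ u) (μ u) (ν u) u x - eta M u x • comb M (κ u) (μ u) (ν u) u y

/-- For `m ≥ 3`, no real hypersurface of `G_2(ℂ^{m+2})` (`ε = 1`) or of
`SU(2,m)/S(U(2)×U(m))` (`ε = -1`), with any scaling `c > 0` of the metric, has its structure
vector field in a `κ`-nullity, a `(κ, μ)`-nullity or a `(κ, μ, ν)`-nullity distribution. -/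
theorem result (hε : ε = 1 ∨ ε = -1) (hc : 0 < c) (hm : 3 ≤ m) (M : RealHypersurface ε c m) :
    (¬ ∃ κ, InNullity M κ 0 0) ∧ (¬ ∃ κ μ, InNullity M κ μ 0) ∧
      (¬ ∃ κ μ ν, InNullity M κ μ ν) := by
  have key : ¬ ∃ κ μ ν, InNullity M κ μ ν := by
    rintro ⟨κ, μ, ν, h⟩
    obtain ⟨u, hu⟩ := M.imm.isConnected.nonempty
    obtain ⟨h1, h2, h3, h4⟩ := iP_facts (M.imm.mem u hu)
    obtain ⟨ξ, hξ⟩ := exists_xi hε M hu h1 h2 h3
    refine core hm hε hc M hu (V := -(cpx (M.F u) (M.N u))) h1 h2 h3 h4 ξ hξ ?_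
    intro x y hx hy
    rw [← cpx_eq] at hξ
    rw [h u hu ξ hξ x y]
    have ex : eta M u x = 0 := hx
    have ey : eta M u y = 0 := hy
    rw [ex, ey]
    simp
  refine ⟨?_, ?_, key⟩
  · rintro ⟨κ, h⟩
    exact key ⟨κ, 0, 0, h⟩
  · rintro ⟨κ, μ, h⟩
    exact key ⟨κ, μ, 0, h⟩

end Pool.Agent.Results.MP_5c1318_gt.NoNullity
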